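import Pool.Agent.HIK.All
import Pool.Agent.Helper35_HIK.Srb

/-!
# HIP: Hilbert's irreducibility theorem over number fields with a uniform power saving (helper39)

The exceptional sets of HIK have at most `C X ^ (m - δ)` elements of house at most `X`, `m = [K : ℚ]`,
with `δ` depending on the polynomial.  Here `δ = 1/4` for ALL polynomials: interpolation by the monomials
`s ^ i y ^ j`, `i ≤ M`, `j < D = deg_y g`, with `M = 2 κ`, `κ` the exponent of the growth of the roots.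
So the exceptional sets for the representations modulo all the powers of all the primes `ℓ` can be joined
(up to finitely many elements for each `ℓ`) to one set with power saving.
-/

set_option autoImplicit false

namespace Pool.Agent.HIP

open Polynomial NumberField Matrix Pool.Agent.MTL Pool.Agent.MTL.H34 Pool.Agent.Helper78_MT
  Pool.Agent.HIK

universe u

/-- Power saving with the exponent `δ`: at most `C X ^ (m - δ)` elements of `S` have house at most `X`,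
`m = [K : ℚ]`. -/
def PZ (K : Type) [Field K] [NumberField K] (δ : ℝ) (S : Set (𝓞 K)) : Prop :=
  ∃ C : ℝ, ∀ X : ℕ, 1 ≤ X → (Nat.card {a : 𝓞 K // a ∈ S ∧ house (a : K) ≤ X} : ℝ) ≤
    C * (X : ℝ) ^ ((Module.finrank ℚ K : ℝ) - δ)

/-- Monic, of degree at least two, irreducible over the rational functions, with a nonzero
discriminant. -/
structure AdmI (K : Type) [Field K] [NumberField K] (g : (𝓞 K)[X][X]) : Prop where
  monic : g.Monic
  deg : 2 ≤ g.natDegree
  irr : Irreducible (g.map (algebraMap (𝓞 K)[X] (FractionRing (𝓞 K)[X])))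
  sep : ∃ (A B : (𝓞 K)[X][X]) (r : (𝓞 K)[X]), r ≠ 0 ∧ A * g + B * derivative g = C r

/-! ### The determinant method with monomials in both variables -/

/-- DET (medium): the divisibility of a determinant whose entries in the row `i` are, modulo `p ^ n`,
polynomials of degree less than `n` in `p b i`.

Proof.  Choose `e i j` with `A i j = ∑ k < n, c j k (p b i) ^ k + p ^ n e i j`.  The column `j` of `A` is
`∑ m, N m j • (column m of M)`, `m` in `Fin n ⊕ Fin n`: for `m = inl k` the column is `(b i ^ k)_i` and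
`N m j = p ^ k c j k`, for `m = inr l` the column is the unit vector `l` and `N m j = p ^ n e l j`.
Multilinearity (`MultilinearMap.map_sum`, `map_smul_univ` for `detRowAlternating` of the transposed
matrix, or the formula `Matrix.det_mul_aux`): `det A = ∑ f, (∏ j, N (f j) j) det (M i (f j))`, over all
`f : Fin n → Fin n ⊕ Fin n`.  If `f` is not injective the determinant is zero (two equal columns).  If
`f` is injective, `∏ j, N (f j) j` is divisible by `p ^ (∑ j, w (f j))`, `w (inl k) = k`, `w (inr l) = n`, and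
`∑ j, w (f j) ≥ 0 + 1 + .. + (n-1)`: let `a` be the number of the `j` with `f j = inl _`; these have
different values of `w`, so their sum is at least `∑ k < a, k`
(`Finset.sum_range_id_le` type lemma, or induction), and the other `n - a` terms are equal to
`n ≥ k` for `a ≤ k < n`. -/
def DetStmt : Prop :=
  ∀ (R : Type) [CommRing R] (n : ℕ) (p : R) (b : Fin n → R) (A : Matrix (Fin n) (Fin n) R)
    (c : Fin n → ℕ → R),
    (∀ i j, p ^ n ∣ A i j - ∑ k ∈ Finset.range n, c j k * (p * b i) ^ k) →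
    p ^ (∑ k ∈ Finset.range n, k) ∣ A.det

/-- MNM (small): monomials of a power series.

Proof.  `P = ∑ k < N, C (c k) X ^ k`, `Q = X ^ i P ^ j`, `c' k = Q.coeff k`.  `y - P(pb)` divides
`y ^ j - P(pb) ^ j` (`sub_dvd_pow_sub_pow`), so `p ^ N` divides `(p b) ^ i y ^ j - Q(pb)`, and
`Q(pb) = ∑ k, Q.coeff k (p b) ^ k` (`eval_eq_sum_range' `), the terms with `k ≥ N` are divisible by
`p ^ N`. -/
def MnmStmt : Prop :=
  ∀ (R : Type) [CommRing R] (p : R) (N : ℕ) (c : ℕ → R) (i j : ℕ), ∃ c' : ℕ → R, ∀ b y : R,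
    p ^ N ∣ y - ∑ k ∈ Finset.range N, c k * (p * b) ^ k →
    p ^ N ∣ (p * b) ^ i * y ^ j - ∑ k ∈ Finset.range N, c' k * (p * b) ^ k

/-- HSD (small): the size of a determinant.  Proof as `Helper13_HIK/HSE.lean`: `Matrix.det_apply`,
`house_sum_le_sum_house`, `house_mul_le`, `house_prod_le`, reindexing of the product by the
permutation. -/
def HsdStmt : Prop :=
  ∀ (K : Type) [Field K] [NumberField K] (n : ℕ) (A : Matrix (Fin n) (Fin n) K) (B : Fin n → ℝ),
    (∀ i j, house (A i j) ≤ B j) → house A.det ≤ (n.factorial : ℝ) * ∏ j, B j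

/-- LNV (medium): if all the maximal minors vanish there is a linear relation between the columns.

Proof.  Let `W` be the span of the `v s`, `s ∈ S`.  If `W = ⊤` then the family of the `v s` contains a
basis of `F ^ n` (`exists_linearIndependent`, or `Basis.ofSpan`), indexed by `Fin n`
(dimension `n`): `n` elements `s = f i`, `f` injective, with `v (f i)` linearly independent, so the
determinant is not zero (`Matrix.linearIndependent_rows_iff_isUnit`).  If `W ≠ ⊤` there is a nonzero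
linear form which vanishes on `W` (`Submodule.exists_le_ker_of_lt_top`); its values at the unit
vectors are the `c j`. -/
def LnvStmt : Prop :=
  ∀ (F : Type) [Field F] (n : ℕ) (S : Finset ℕ) (v : ℕ → Fin n → F),
    (∀ f : Fin n → ℕ, Function.Injective f → (∀ i, f i ∈ S) →
      (Matrix.of fun i j => v (f i) j).det = 0) →
    ∃ c : Fin n → F, c ≠ 0 ∧ ∀ s ∈ S, ∑ j, v s j * c j = 0

/-- NRM (STRONG): common zeros of an irreducible polynomial `g` and a polynomial `h` of smaller degree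
in `y`, with a bound which depends only on `g` and on the degrees of the coefficients of `h`.

Proof.  `D = natDegree g`, `k` the fraction field of `A[X]`.  For `i < D` let
`h Y ^ i %ₘ g = ∑ j < D, N i j Y ^ j` (`modByMonic`), a `D × D` matrix `N` over `A[X]`, and `B` a bound for the
degree of `det N` in `X` which depends only on `g` and `M`: e.g. by induction on the degree in `Y`, if all the
coefficients of `q` have degree `≤ M'` then those of `q %ₘ g` have degree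
`≤ M' + (natDegree q) G`, `G` a bound for the degrees of the coefficients of `g`
(one step: subtract `leadingCoeff q Y ^ (deg q - D) g`); so `natDegree (N i j) ≤ M + 2 D G` and
`natDegree (det N) ≤ D (M + 2 D G) =: B` (`Matrix.det_apply`, `natDegree_sum_le`, `natDegree_prod_le`).
(1) `det N ≠ 0`: otherwise there are `w : Fin D → k`, `w ≠ 0`, with `∑ i, w i N i j = 0`
(`Matrix.exists_vecMul_eq_zero_iff` for `N` over `k`), so for `W = ∑ i, w i Y ^ i` in `k[Y]` the remainder of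
`h W` modulo `g` is zero, `g ∣ h W` over `k`; `g` is irreducible, hence prime in `k[Y]`, so
`g ∣ h` or `g ∣ W`, impossible since both are nonzero of degree less than `D`.
(2) if `g (t, y) = h (t, y) = 0` then `0 = h (t, y) y ^ i = ∑ j, N i j (t) y ^ j` for all `i`, so the matrix
`N (t)` over `A` kills the vector `(y ^ j)_j` which is not zero (`y ^ 0 = 1`, `D ≥ 1`), so
`det N (t) = (det N).eval t = 0` (`Matrix.exists_mulVec_eq_zero_iff`, `RingHom.map_det`).
(3) `S` is contained in the roots of `det N` (`Polynomial.card_roots'`). -/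
def NrmStmt : Prop :=
  ∀ (A : Type) [CommRing A] [IsDomain A] (g : A[X][X]), g.Monic →
    Irreducible (g.map (algebraMap A[X] (FractionRing A[X]))) → ∀ M : ℕ, ∃ B : ℕ,
    ∀ h : A[X][X], h ≠ 0 → h.natDegree < g.natDegree → (∀ j, (h.coeff j).natDegree ≤ M) →
      ∀ S : Finset A, (∀ t ∈ S, ∃ y : A, evalEval t y g = 0 ∧ evalEval t y h = 0) → S.card ≤ B

/-- CLI (STRONG): few integral points in one residue class.  Uses TAY (proved: `H15.tay`), DET, MNM, HSD,
LNV, NRM.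

Proof.  `D = natDegree g`, `R = D (M + 1)`, `B` the bound of NRM for `M`.  Let `e` be an equivalence
`Fin R ≃ Fin D × Fin (M + 1)`.  For `n ∈ S` let `s n = (n - n0 : ℤ)`, `s n = p b n`, and
`v n r = (s n) ^ i (y n) ^ j` in `𝓞 K`, `(j, i) = e r`.
(1) For `f : Fin R → ℕ` injective with values in `S` let `A = (v (f i) r)`.  TAY with `N = R` and
`t0 = a0 + n0` gives `c` with `p ^ R ∣ y n - ∑ k < R, c k (p b n) ^ k` for all `n` in `S`, MNM the coefficients for the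
monomials, DET: `p ^ (∑ k < R, k) ∣ det A`.  By HSD the house of `det A` is at most
`R! ∏ (j,i), T ^ i Y ^ j = R! T ^ (D ∑ i ≤ M, i) Y ^ ((M + 1) ∑ j < D, j)` (`1 ≤ T` may be assumed: if `T = 0` then
`S` has at most one element; or use `house (s n) ≤ max T 1`), which is smaller than
`p ^ (∑ k < R, k)`.  A nonzero algebraic integer `p ^ e z` has house `p ^ e house z ≥ p ^ e`
(`house_nat_mul`, `one_le_house_of_isIntegral`), so `det A = 0`.  (See `Helper10_HIK/Cls.lean`.)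
(2) LNV over `K` gives `c : Fin R → K`, `c ≠ 0`, and after multiplication by a common denominator
`c` in `𝓞 K`; `h = ∑ r, C (c r (X - C (a0 + n0)) ^ i) Y ^ j` is in `(𝓞 K)[X][Y]`, of degree `< D` in `Y`,
its coefficients have degree `≤ M`, `h (a0 + n, y n) = ∑ r, c r v n r = 0`, and `h ≠ 0`: some
`∑ i, c (j,i) (X - a) ^ i` is not zero (compose with `X + a`).
(3) NRM for the finset of the `a0 + n`, `n ∈ S` (`n ↦ a0 + n` is injective): `S.card ≤ B`. -/
def CliStmt : Prop :=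
  ∀ (K : Type) [Field K] [NumberField K] (g : (𝓞 K)[X][X]), AdmI K g → ∀ M : ℕ, ∃ B : ℕ,
    ∀ (p : ℕ), p.Prime → ∀ (a0 y0 : 𝓞 K) (n0 T Y : ℕ), n0 ≤ T → 1 ≤ T →
    (p : 𝓞 K) ∣ evalEval (a0 + n0) y0 g →
    UnitMod (p : 𝓞 K) (evalEval (a0 + n0) y0 (derivative g)) →
    (g.natDegree * (M + 1)).factorial *
      (T ^ (g.natDegree * ∑ i ∈ Finset.range (M + 1), i) *
        Y ^ ((M + 1) * ∑ j ∈ Finset.range g.natDegree, j)) <
      p ^ (∑ k ∈ Finset.range (g.natDegree * (M + 1)), k) →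
    ∀ (S : Finset ℕ) (y : ℕ → 𝓞 K), (∀ n ∈ S, n ≤ T) → (∀ n ∈ S, (p : ℤ) ∣ (n : ℤ) - n0) →
      (∀ n ∈ S, (p : 𝓞 K) ∣ y n - y0) → (∀ n ∈ S, evalEval (a0 + n) (y n) g = 0) →
      (∀ n ∈ S, house (y n : K) ≤ Y) → S.card ≤ B

/-- EXP (small): the arithmetic of the exponents.  With `x = ∑ i < M + 1, i`, `2 x = (M + 1) M`
(`Finset.sum_range_id_mul_two`), `2 ∑ j < D, j = D (D - 1)`, `2 ∑ k < D (M + 1), k = D (M + 1) (D (M + 1) - 1)`:
multiply by two and divide by `D (M + 1)`: to show `4 (M + κ (D - 1)) + 1 ≤ 3 (D (M + 1) - 1)` for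
`M = 2 κ`, `D ≥ 2`, that is `4 κ (D - 1) ≤ (3 D - 4) (2 κ + 1)`, true since `2 (D - 1) ≤ 3 D - 4`; the term `1`
becomes `D (M + 1) / 2 ≥ 1`. -/
def ExpStmt : Prop :=
  ∀ D κ : ℕ, 2 ≤ D →
    4 * (D * ∑ i ∈ Finset.range (2 * κ + 1), i) +
      4 * κ * ((2 * κ + 1) * ∑ j ∈ Finset.range D, j) + 1 ≤
    3 * ∑ k ∈ Finset.range (D * (2 * κ + 1)), k

/-- CNI (medium): the number of the bad parameters in a segment of length `R ^ 4` is at most `C' R ^ 3`.
Uses CLI, EXP, RTB, RTS, SNG (the last three are proved: `H52.rtb`, `rtsA`, `sngA` in HIK/All).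

Proof: edit of `Helper31_HIK/CNT.lean` with `e = 4`, CLI in place of CLS, `M = 2 κ`, `T = R ^ 4`,
`Y = C (3 R ^ 4) ^ κ`, a prime `R ^ 3 < p ≤ 2 R ^ 3`: the size condition is
`(r!) (R ^ 4) ^ a (C (3 R ^ 4) ^ κ) ^ b < p ^ c`, where `4 a + 4 κ b + 1 ≤ 3 c` (EXP) and
`r! (C 3 ^ κ) ^ b ≤ R` for `R ≥ R0`. -/
def CniStmt : Prop :=
  ∀ (K : Type) [Field K] [NumberField K] (g : (𝓞 K)[X][X]), AdmI K g →
    ∃ C' R0 : ℕ, ∀ R ≥ R0, ∀ a0 : 𝓞 K, house (a0 : K) ≤ 2 * (R : ℝ) ^ 4 →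
      Nat.card {n : ℕ // n < R ^ 4 ∧ ∃ y : 𝓞 K, evalEval (a0 + n) y g = 0} ≤ C' * R ^ 3

/-! ### Counting -/

/-- PZC (small): calculus of power saving.  Proofs as `Helper94_HIK/DZC.lean` (finiteness by BOX,
`boxA` in HIK/All); `m = finrank ℚ K ≥ 1`. -/
def PzcStmt : Prop :=
  ∀ (K : Type) [Field K] [NumberField K] (δ : ℝ),
    (∀ S T : Set (𝓞 K), S ⊆ T → PZ K δ T → PZ K δ S) ∧
    (∀ (ι : Type) [Finite ι] (S : ι → Set (𝓞 K)), (∀ i, PZ K δ (S i)) → PZ K δ (⋃ i, S i)) ∧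
    (δ ≤ 1 → ∀ S : Set (𝓞 K), S.Finite → PZ K δ S) ∧
    (∀ δ' : ℝ, δ' ≤ δ → ∀ S : Set (𝓞 K), PZ K δ S → PZ K δ' S) ∧
    (0 < δ → ∀ S : Set (𝓞 K), PZ K δ S → DZ K S)

/-- AVZ (small): power saving from segments in the direction of one.  Proof as `Helper44_HIK/AVG.lean`:
`X #(S ∩ B_X) ≤ #B_(2X) C X ^ (1 - δ)`, `#B_(2X) ≤ C1 (2 X + 1) ^ m`, for `X ≥ max X0 1`; for `X < X0` the number is
at most `#B_(X0)` and `1 ≤ X ^ (m - δ)`. -/
def AvzStmt : Prop :=
  ∀ (K : Type) [Field K] [NumberField K] (S : Set (𝓞 K)) (δ : ℝ), 0 ≤ δ → δ ≤ 1 →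
    (∃ (C : ℝ) (X0 : ℕ), ∀ X : ℕ, X0 ≤ X → ∀ a0 : 𝓞 K, house (a0 : K) ≤ 2 * X →
      (Nat.card {j : ℕ // j < X ∧ a0 + j ∈ S} : ℝ) ≤ C * (X : ℝ) ^ (1 - δ)) → PZ K δ S

/-- HIZ (small): HID with the exponent `1/4`.  Uses CNI, AVZ.  Proof as `Helper65_HIK/Hid.lean` (`exR`):
`X ≤ (R + 1) ^ 4`, `R ^ 4 < X`, at most `C' (R + 1) ^ 3 ≤ 8 C' R ^ 3 ≤ 8 C' X ^ (3/4)` bad `j < X`. -/
def HizStmt : Prop :=
  ∀ (K : Type) [Field K] [NumberField K] (g : (𝓞 K)[X][X]), AdmI K g →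
    PZ K (1 / 4) {a : 𝓞 K | ∃ y : 𝓞 K, evalEval a y g = 0}

/-- PZD (medium): countably many sets with the same power saving.

Proof.  `C ℓ ≥ 0` the constants; `N ℓ ≥ ℓ + 1` with `C ℓ 2 ^ (ℓ + 1) ≤ (N ℓ) ^ (δ - δ')`;
`T = {a | ∃ ℓ, a ∈ S ℓ ∧ N ℓ ≤ house a}`.  For `a` in `T` of house at most `X` there is `ℓ` with `N ℓ ≤ X`, so
`ℓ < X`, and `a ∈ S ℓ`: the number is at most `∑ (ℓ < X, N ℓ ≤ X), C ℓ X ^ (m - δ) ≤
∑ ℓ < X, 2 ^ (-ℓ-1) (N ℓ) ^ (δ - δ') X ^ (m - δ) ≤ X ^ (m - δ')` (`(N ℓ) ^ (δ - δ') ≤ X ^ (δ - δ')`; finiteness by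
BOX; cardinality of a finite union). -/
def PzdStmt : Prop :=
  ∀ (K : Type) [Field K] [NumberField K] (δ δ' : ℝ), δ' < δ → ∀ S : ℕ → Set (𝓞 K),
    (∀ ℓ, PZ K δ (S ℓ)) → ∃ (T : Set (𝓞 K)) (N : ℕ → ℕ), PZ K δ' T ∧
      ∀ ℓ, ∀ a ∈ S ℓ, (N ℓ : ℝ) ≤ house (a : K) → a ∈ T

/-! ### Galois theory -/

/-- ALI (small): ALG with an irreducible polynomial.  Edit of `Helper25_HIK/ALG.lean`: `g` is a lift of
`(minpoly k y).scaleRoots σ`, which is irreducible (`irreducible_scaleRoots`); its degree is not zero, and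
if it were one `y` would be in `k` (`minpoly.mem_range_of_degree_eq_one`). -/
def AliStmt : Prop :=
  ∀ (A k Ω : Type) [CommRing A] [IsDomain A] [Field k] [Field Ω] [CharZero k] [Algebra A k]
    [IsFractionRing A k] [Algebra k Ω] [Algebra A Ω] [IsScalarTower A k Ω] (y : Ω),
    IsAlgebraic k y → y ∉ Set.range (algebraMap k Ω) →
    ∃ (s : A) (g : A[X]), s ≠ 0 ∧ g.Monic ∧ g.eval₂ (algebraMap A Ω) (algebraMap A Ω s * y) = 0 ∧
      2 ≤ g.natDegree ∧ Irreducible (g.map (algebraMap A k)) ∧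
      ∃ (P Q : A[X]) (r : A), r ≠ 0 ∧ P * g + Q * derivative g = C r

/-- EXI (small, uses ALI, otherwise the hypotheses of `exo`): edit of `Helper84_HIK/EXO.lean`; the
irreducibility is transported from `E` to `FractionRing (𝓞 K)[X]` by `IsLocalization.algEquiv` (or
`FractionRing.algEquiv`) and `Polynomial.mapEquiv` (`MulEquiv.irreducible_iff`). -/
def ExiStmt : Prop :=
  ∀ (K : Type) [Field K] [NumberField K] (φ : K →+* Om) (H : Subgroup GT),
    IsClosed (H : Set GT) → ¬ Gph φ ≤ H →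
    ∃ (x : Om) (g : (𝓞 K)[X][X]), AdmI K g ∧ g.eval₂ (zph φ) x = 0 ∧
      ∀ σ ∈ H, σ ∈ Gph φ → σ x = x

/-- HCI (small, uses EXI, HIZ, PZC, otherwise the hypotheses of `hic`): edit of `hic` in
`Helper35_HIK/Hic.lean`. -/
def HciStmt : Prop :=
  ∀ (K : Type) [Field K] [NumberField K] (N : Subgroup GT), N.Normal → IsOpen (N : Set GT) →
    ∃ S : Set (𝓞 K), PZ K (1 / 4) S ∧ ∀ a ∉ S, ∀ (ψ : K →+* QB) (π : BB →+* QB),
      π (algebraMap ℚ[X] BB X) = ψ a → ∃ φ : K →+* Om,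
        (∀ c : K, ∃ b : BB, (b : Om) = φ c ∧ π b = ψ c) ∧
        ∀ γ ∈ Gph φ, ∃ σ ∈ decG π, σ ∈ Gph φ ∧ σ⁻¹ * γ ∈ N

/-- SRI (small, uses HCI, otherwise the hypotheses of `ser`): edit of `Helper87_HIK/SER.lean`. -/
def SriStmt : Prop :=
  ∀ (K : Type) [Field K] [NumberField K] (d : Type) [Fintype d] [DecidableEq d] (ℓ : ℕ)
    [Fact ℓ.Prime] (ρ : GT →* GL d ℚ_[ℓ]), Continuous ρ → ∃ S : Set (𝓞 K), PZ K (1 / 4) S ∧
      ∀ a ∉ S, ∀ (ψ : K →+* QB) (ρa : Stab (ψ a) →* GL d ℚ_[ℓ]), SpecializesAt ρ (ψ a) ρa →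
        Set.range ρa ⊆ Set.range ρ ∧
        ∃ Γ : Subgroup GT, Γ.FiniteIndex ∧ ρ '' (Γ : Set GT) ⊆ Set.range ρa

/-- SBI (small, uses HCI, otherwise the hypotheses of `srb`): edit of `srb` in
`Helper35_HIK/Srb.lean`. -/
def SbiStmt : Prop :=
  ∀ (K : Type) [Field K] [NumberField K] (H : Subgroup GT), IsOpen (H : Set GT) →
    ∀ (d : Type) [Fintype d] [DecidableEq d] (ℓ : ℕ) [Fact ℓ.Prime] (ρ : H →* GL d ℚ_[ℓ]),
      Continuous ρ → ∃ S : Set (𝓞 K), PZ K (1 / 4) S ∧ ∀ a ∉ S, ∀ (ψ : K →+* QB) (π : BB →+* QB),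
        π (algebraMap ℚ[X] BB X) = ψ a → ∀ ρs : StabH H π →* GL d ℚ_[ℓ], SpecH H ρ π ρs →
        Set.range ρs ⊆ Set.range ρ ∧
        ∃ Γ : Subgroup H, Γ.FiniteIndex ∧ ρ '' (Γ : Set H) ⊆ Set.range ρs

/-- FNI (small, uses SRI, MON (`monA`)): edit of `Helper81_HIK/FIN.lean`. -/
def FniStmt : Prop :=
  ∀ (K : Type) [Field K] [NumberField K] (d : Type) [Fintype d] [DecidableEq d] (ℓ : ℕ)
    [Fact ℓ.Prime] (ρ : GT →* GL d ℚ_[ℓ]), Continuous ρ → ∃ S : Set (𝓞 K), PZ K (1 / 4) S ∧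
      ∀ a ∉ S, ∀ (ψ : K →+* QB) (ρa : Stab (ψ a) →* GL d ℚ_[ℓ]), SpecializesAt ρ (ψ a) ρa →
        ∀ (F : Type u) [Field F] [Algebra ℚ_[ℓ] F], monodromy ρa F = monodromy ρ F

/-- GKI (small, uses HCI, MON, otherwise the hypotheses of `gks`, `gkm`): edit of `gks`, `gkm` in
`Helper35_HIK/Hic.lean`. -/
def GkiStmt : Prop :=
  ∀ (K : Type) [Field K] [NumberField K] (d : Type) [Fintype d] [DecidableEq d] (ℓ : ℕ)
    [Fact ℓ.Prime] (ρ : GT →* GL d ℚ_[ℓ]), Continuous ρ → ∃ S : Set (𝓞 K), PZ K (1 / 4) S ∧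
      ∀ a ∉ S, ∀ (ψ : K →+* QB) (ρa : MTN.Gk ψ →* GL d ℚ_[ℓ]), MTN.SpecK ρ ψ (a : K) ρa →
        ∀ (F : Type u) [Field F] [Algebra ℚ_[ℓ] F], monodromy ρa F = monodromy ρ F

end Pool.Agent.HIP
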